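import Pool.Agent.Helper16.BZ.Stmts
import Pool.Agent.Helper57.AZ.ATM

/-! # Large correlations come from an eigenvector -/

namespace Pool.Agent.Helper16.BZ

open Finset Filter MeasureTheory Topology
open scoped ComplexConjugate InnerProductSpace
open Pool.Agent.Helper16.AZ (T E Op mm Eig PP ST_VDH ST_MSR ST_MRF ST_FPV ST_TLR)
open Pool.Agent.Helper16.MD (MS PB Am RW Rich)

/-- large correlations come from an eigenvector -/
theorem st_ATM2 (h1 : ST_MSR) (h2 : ST_ATA2) : ST_ATM2 := by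
  intro κ hκ
  obtain ⟨H, κ', hH, hκ', h3⟩ := h2 κ hκ
  refine ⟨H, κ', hH, hκ', ?_⟩
  intro V _ _ _ U ξ hU hξ hfr
  obtain ⟨ν, hfin, hν, hm, hat⟩ := h1 V U ξ hU
  have hin := Pool.Agent.Helper16.AZ.atm_inner hU hν hm
  have hmass : (ν Set.univ).toReal ≤ 4 := by
    have e1 := hm 0
    simp only [pow_zero, integral_const, one_apply_eq_self] at e1
    have e2 : ((ν Set.univ).toReal : ℂ) = inner ℂ ξ ξ := by
      rw [← e1]
      simp [Measure.real]
    have e4 := congrArg Complex.re e2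
    have e5 : (inner ℂ ξ ξ : ℂ).re = ‖ξ‖ ^ 2 := inner_self_eq_norm_sq (𝕜 := ℂ) ξ
    rw [e5, Complex.ofReal_re] at e4
    have e3 : (ν Set.univ).toReal = ‖ξ‖ ^ 2 := e4
    rw [e3]
    nlinarith [norm_nonneg ξ]
  obtain ⟨z₀, hz₀, hz⟩ := h3 ν hmass hν (hfr.mono fun i hi => by
    refine ⟨hi.1, lt_of_lt_of_eq hi.2 ?_⟩
    refine Finset.sum_congr rfl fun p _ => ?_
    exact Pool.Agent.Helper16.AZ.atm_sum hν (fun a b => inner ℂ ((U ^ a) ξ) ((U ^ b) ξ)) hin p H)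
  obtain ⟨η, hη1, hη2, hη3⟩ := hat z₀ hz₀
  refine ⟨η, hη1.trans hξ, ⟨z₀, hz₀, hη2⟩, ?_⟩
  rw [norm_inner_symm, hη3, Complex.norm_real, Real.norm_of_nonneg ENNReal.toReal_nonneg]
  exact hz

end Pool.Agent.Helper16.BZ
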